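import Pool.Agent.L7h80.RC.StmB

/-!
# RD, part PRI: the minimal primes of a reduced one-dimensional quotient
-/

set_option autoImplicit false

namespace Pool.Agent.L7h56.RC

open MvPowerSeries Pool.Agent.L7h80.RC

theorem mI_max (hSP : S_SP) (n : ℕ) : (mI n).IsMaximal := by
  have h : mI n = RingHom.ker (constantCoeff : PS n →+* ℂ) := by
    ext f
    rw [mem_mI hSP, RingHom.mem_ker]
  rw [h]
  apply RingHom.ker_isMaximal_of_surjective
  intro c
  exact ⟨C c, constantCoeff_C c⟩

theorem le_mI (hSP : S_SP) {n : ℕ} (q : Ideal (PS n)) (hq : q ≠ ⊤) : q ≤ mI n := fun f hf =>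
  (mem_mI hSP f).2 (constantCoeff_of_mem hq hf)

/-- the point of the spectrum of the quotient -/
noncomputable def pnt {n : ℕ} (I q : Ideal (PS n)) (hq : q.IsPrime) (h : I ≤ q) :
    PrimeSpectrum (PS n ⧸ I) :=
  ⟨q.map (Ideal.Quotient.mk I), Ideal.isPrime_map_quotientMk_of_isPrime h⟩

theorem pnt_lt {n : ℕ} (I q q' : Ideal (PS n)) (hq : q.IsPrime) (h : I ≤ q) (hq' : q'.IsPrime)
    (h' : I ≤ q') (hlt : q < q') : pnt I q hq h < pnt I q' hq' h' := by
  rw [lt_iff_le_not_ge] at hlt ⊢
  constructor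
  · exact Ideal.map_mono hlt.1
  · intro hle
    apply hlt.2
    have h1 : q'.map (Ideal.Quotient.mk I) ≤ q.map (Ideal.Quotient.mk I) := hle
    have h2 := Ideal.comap_mono (f := Ideal.Quotient.mk I) h1
    rwa [Ideal.comap_map_mk h', Ideal.comap_map_mk h] at h2

theorem s_PRI (hSP : S_SP) : S_PRI := by
  classical
  intro n I hrad hdim
  have hmax := mI_max hSP n
  have hfin := I.finite_minimalPrimes_of_isNoetherianRing (PS n)
  have hItop : I ≠ ⊤ := by
    rintro rfl
    have : Subsingleton (PS n ⧸ (⊤ : Ideal (PS n))) := Ideal.Quotient.subsingleton_iff.2 rfl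
    rw [ringKrullDim_eq_bot_of_subsingleton] at hdim
    exact absurd hdim (by decide)
  have hImI : I ≤ mI n := le_mI hSP I hItop
  -- no chain of three primes
  have hchain : ∀ q q' : Ideal (PS n), q.IsPrime → q'.IsPrime → I ≤ q → q < q' → q' = mI n := by
    intro q q' hq hq' hIq hlt
    by_contra hne
    have hlt' : q' < mI n := lt_of_le_of_ne (le_mI hSP q' hq'.ne_top) hne
    have hIq' : I ≤ q' := hIq.trans hlt.le
    have h1 : ringKrullDim (PS n ⧸ I) ≤ 1 := hdim.le
    have h2 := Order.krullDim_le_one_iff.1 h1 (pnt I q' hq' hIq')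
    rcases h2 with h2 | h2
    · have h3 := pnt_lt I q q' hq hIq hq' hIq' hlt
      exact h2.not_lt h3
    · have h3 := pnt_lt I q' (mI n) hq' hIq' hmax.isPrime hImI hlt'
      exact h2.not_lt h3
  refine ⟨hfin.toFinset, ?_, ?_, ?_, ?_⟩
  · rw [Finset.inf_id_eq_sInf, Set.Finite.coe_toFinset, Ideal.sInf_minimalPrimes, hrad.radical]
  · intro p hp
    exact ((Set.Finite.mem_toFinset hfin).1 hp).1.1
  · intro p hp q hq hpq
    have hp' := (Set.Finite.mem_toFinset hfin).1 hp
    have hq' := (Set.Finite.mem_toFinset hfin).1 hq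
    exact le_antisymm (hq'.2 ⟨hp'.1.1, hp'.1.2⟩ hpq) hpq
  · intro p hp
    have hp' := (Set.Finite.mem_toFinset hfin).1 hp
    have hpp : p.IsPrime := hp'.1.1
    have hIp : I ≤ p := hp'.1.2
    -- `p` is not the maximal ideal
    have hne : p ≠ mI n := by
      intro heq
      have hpos : 0 < ringKrullDim (PS n ⧸ I) := by rw [hdim]; exact zero_lt_one
      obtain ⟨x, y, hxy⟩ := Order.krullDim_pos_iff.1 hpos
      have hx : (x.asIdeal.comap (Ideal.Quotient.mk I)) = mI n := by
        apply le_antisymm (le_mI hSP _ (Ideal.IsPrime.ne_top inferInstance))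
        rw [← heq]
        refine hp'.2 ⟨inferInstance, ?_⟩ ?_
        · intro f hf
          rw [Ideal.mem_comap, Ideal.Quotient.eq_zero_iff_mem.2 hf]
          exact Ideal.zero_mem _
        · rw [heq]
          exact le_mI hSP _ (Ideal.IsPrime.ne_top inferInstance)
      have hy : (y.asIdeal.comap (Ideal.Quotient.mk I)) = mI n := by
        apply le_antisymm (le_mI hSP _ (Ideal.IsPrime.ne_top inferInstance))
        rw [← hx]
        exact Ideal.comap_mono hxy.le
      have : x.asIdeal = y.asIdeal :=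
        Ideal.comap_injective_of_surjective _ Ideal.Quotient.mk_surjective (hx.trans hy.symm)
      exact hxy.ne (PrimeSpectrum.ext this)
    obtain ⟨i0, hi0⟩ : ∃ i0 : Fin n, (X i0 : PS n) ∉ p := by
      by_contra hcon
      push Not at hcon
      apply hne
      apply le_antisymm (le_mI hSP p hpp.ne_top)
      rw [mI, Ideal.span_le]
      rintro _ ⟨i, rfl⟩
      exact hcon i
    refine ⟨i0, hi0, ?_⟩
    have h1 : mI n ≤ (p ⊔ Ideal.span {(X i0 : PS n)}).radical := by
      rw [Ideal.radical_eq_sInf]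
      refine le_sInf ?_
      rintro q ⟨hq, hqp⟩
      have hpq : p < q := by
        refine lt_of_le_of_ne (le_sup_left.trans hq) ?_
        rintro rfl
        exact hi0 (hq (Ideal.mem_sup_right (Ideal.mem_span_singleton_self _)))
      exact (hchain p q hpp hqp hIp hpq).ge
    exact Ideal.exists_pow_le_of_le_radical_of_fg h1 (IsNoetherian.noetherian _)

end Pool.Agent.L7h56.RC
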